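import Mathlib
import Pool.Agent.Y986.GL.Card

/-!
# An enlargement in which divisor witnesses fail

The nonstandard extension is the ultrapower by an ultrafilter `U` on a set `I`: the nonstandard
extension of a set `α` is `Filter.Germ U α`, the extension of `A ⊆ α` consists of the germs which
are in `A` almost everywhere, and operations and relations are extended pointwise. It is an
enlargement if all families of subsets of a set `α` with the finite intersection property have a
common element in the intersection of the extensions of their members.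

Let `W` be an ultrafilter on a set `J` whose ultrapower is an enlargement, let `G` be an
ultrafilter on `N = {1, 2, 3, …}` which contains all `kN`, and let `U` be the product of `G` and
`W` on `N × J`, for which `S` is large iff for `G`-almost all `n` and `W`-almost all `t`
`(n, t) ∈ S`. The germ `y` of `(n, t) ↦ n` is in the monad of `G`. If the germ of `f` divides `y`,
then `f(n, t)` is one of the finitely many divisors of `n`, so that it is, for `W`-almost all `t`,
equal to some `d(n)`. So the ultrafilters in whose monads `y` has divisors are images of `G` under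
maps `d : N → N`, and there are only `2 ^ ℵ₀` of them, while all `2 ^ (2 ^ ℵ₀)` ultrafilters `F` on
`N` satisfy `F ∣~ G`.
-/

set_option autoImplicit false

open Filter Cardinal

namespace Pool.Agent.Results.MP_c54df4_lc.NoDivisorInMonad

universe u v

/-- The extension `*A` of a set `A ⊆ α` in the ultrapower by `U`. -/
def star {I : Type u} (U : Ultrafilter I) {α : Type v} (A : Set α) :
    Set (Germ (U : Filter I) α) := {x | x.LiftPred (· ∈ A)}

/-- The ultrapower by `U` is an enlargement: for every set `α` and every family `𝒜` of subsets of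
`α` with the finite intersection property there is a common element of all `*A`, `A ∈ 𝒜`. -/
def IsEnlargement {I : Type u} (U : Ultrafilter I) : Prop :=
  ∀ (α : Type) (𝒜 : Set (Set α)),
    (∀ s : Finset (Set α), (s : Set (Set α)) ⊆ 𝒜 → (⋂₀ (s : Set (Set α))).Nonempty) →
      ∃ x : Germ (U : Filter I) α, ∀ A ∈ 𝒜, x ∈ star U A

/-- The monad `μ(F)` of an ultrafilter `F` on `N = {1, 2, 3, …}`. -/
def monad {I : Type u} (U : Ultrafilter I) (F : Ultrafilter ℕ+) : Set (Germ (U : Filter I) ℕ+) :=
  {x | ∀ A ∈ F, x ∈ star U A}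

/-- `A↑`, the set of all multiples of elements of `A`. -/
def up (A : Set ℕ+) : Set ℕ+ := {n | ∃ a ∈ A, a ∣ n}

/-- The divisibility relation `∣~` of ultrafilters. -/
def TildeDvd (F G : Ultrafilter ℕ+) : Prop := ∀ A ∈ F, up A ∈ G

/-- There is an ultrafilter whose ultrapower is an enlargement. -/
lemma exists_enlargement : ∃ (J : Type 1) (W : Ultrafilter J), IsEnlargement W := by
  classical
  refine ⟨Finset (Σ α : Type, Set α), Ultrafilter.of atTop, ?_⟩
  intro α 𝒜 h
  have h' : ∀ j : Finset (Σ α : Type, Set α), ∃ x : α, ∀ A ∈ 𝒜,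
      (⟨α, A⟩ : Σ α : Type, Set α) ∈ j → x ∈ A := by
    intro j
    have hfin : {A : Set α | A ∈ 𝒜 ∧ (⟨α, A⟩ : Σ α : Type, Set α) ∈ j}.Finite := by
      have h1 : ((fun A : Set α => (⟨α, A⟩ : Σ α : Type, Set α)) ⁻¹' (j : Set _)).Finite := by
        apply Set.Finite.preimage
        · intro A _ B _ hAB
          simpa using hAB
        · exact j.finite_toSet
      exact h1.subset fun A hA => hA.2
    obtain ⟨x, hx⟩ := h hfin.toFinset (by
      intro A hA
      simp only [Set.Finite.coe_toFinset] at hA
      exact hA.1)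
    refine ⟨x, fun A hA hAj => hx A ?_⟩
    simp only [Set.Finite.coe_toFinset]
    exact ⟨hA, hAj⟩
  choose x hx using h'
  refine ⟨(x : Germ _ α), fun A hA => ?_⟩
  have : ∀ᶠ j in (atTop : Filter (Finset (Σ α : Type, Set α))), x j ∈ A := by
    filter_upwards [eventually_ge_atTop {⟨α, A⟩}] with j hj
    exact hx j A hA (hj (Finset.mem_singleton_self _))
  exact Ultrafilter.of_le atTop this

/-- The product `G ⊗ W` of ultrafilters on `ℕ+` and on `J`. -/
noncomputable def prod {J : Type 1} (G : Ultrafilter ℕ+) (W : Ultrafilter J) :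
    Ultrafilter (ℕ+ × J) := G.bind fun n => W.map (Prod.mk n)

lemma mem_prod {J : Type 1} {G : Ultrafilter ℕ+} {W : Ultrafilter J} {s : Set (ℕ+ × J)} :
    s ∈ prod G W ↔ {n | {t | (n, t) ∈ s} ∈ W} ∈ G := Iff.rfl

/-- There is an ultrafilter containing all `kN`. -/
lemma exists_G : ∃ G : Ultrafilter ℕ+, ∀ k : ℕ+, {n : ℕ+ | k ∣ n} ∈ G := by
  let x : Finset ℕ+ → ℕ+ := fun s => ∏ k ∈ s, k
  refine ⟨Ultrafilter.of (Filter.map x atTop), fun k => ?_⟩
  refine Ultrafilter.of_le (Filter.map x atTop) ?_
  rw [Filter.mem_map]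
  filter_upwards [eventually_ge_atTop {k}] with s hs
  exact Finset.dvd_prod_of_mem (fun k => k) (hs (Finset.mem_singleton_self k))

/-- There are more ultrafilters on `ℕ+` than maps `ℕ+ → ℕ+`. -/
lemma exists_F (G : Ultrafilter ℕ+) : ∃ F : Ultrafilter ℕ+, ∀ d : ℕ+ → ℕ+, G.map d ≠ F := by
  by_contra hcon
  push Not at hcon
  choose d hd using hcon
  have hinj : Function.Injective d := by
    intro F F' h
    rw [← hd F, ← hd F', h]
  have h1 := mk_le_of_injective hinj
  obtain ⟨e⟩ : Nonempty (ℕ ≃ ℕ+) := ⟨Equiv.pnatEquivNat.symm⟩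
  have h2 : #(Ultrafilter ℕ) ≤ #(Ultrafilter ℕ+) := by
    have : Function.Injective fun q : Ultrafilter ℕ => q.map e := by
      intro q q' h
      have h2 : (q.map e : Filter ℕ+) = (q'.map e : Filter ℕ+) := congrArg _ h
      rw [Ultrafilter.coe_map, Ultrafilter.coe_map] at h2
      exact Ultrafilter.coe_injective (Filter.map_injective e.injective h2)
    exact mk_le_of_injective this
  have h3 : #(ℕ+ → ℕ+) = (2 : Cardinal.{0}) ^ ℵ₀ := by
    simp
  have h4 := (Pool.Agent.Y986.GL.card_ult.trans h2).trans h1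
  rw [h3] at h4
  exact absurd h4 (not_le.2 (cantor _))

/-- **Divisor witnesses in monads may fail.** There are an ultrapower which is an enlargement,
ultrafilters `F, G` on `N = {1, 2, 3, …}` with `F ∣~ G`, and an element `y` of the monad of `G`
which is not divisible (in the nonstandard natural numbers) by any element of the monad of `F`. -/
theorem result : ∃ (I : Type 1) (U : Ultrafilter I), IsEnlargement U ∧
    ∃ F G : Ultrafilter ℕ+, TildeDvd F G ∧
      ∃ y ∈ monad U G, ∀ x ∈ monad U F, ¬ ∃ z : Germ (U : Filter I) ℕ+, y = x * z := by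
  obtain ⟨J, W, hW⟩ := exists_enlargement
  obtain ⟨G, hG⟩ := exists_G
  obtain ⟨F, hF⟩ := exists_F G
  refine ⟨ℕ+ × J, prod G W, ?_, F, G, ?_, ?_⟩
  · intro α 𝒜 h
    obtain ⟨x, hx⟩ := hW α 𝒜 h
    induction x using Germ.inductionOn with
    | h x =>
      refine ⟨((fun p : ℕ+ × J => x p.2 : ℕ+ × J → α) : Germ _ α), fun A hA => ?_⟩
      have h1 : {t | x t ∈ A} ∈ W := hx A hA
      change {p : ℕ+ × J | x p.2 ∈ A} ∈ prod G W
      rw [mem_prod]
      simp only [Set.mem_ofPred_eq, h1]
      exact univ_mem
  · intro A hA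
    obtain ⟨a, ha⟩ := F.nonempty_of_mem hA
    filter_upwards [hG a] with n hn
    exact ⟨a, ha, hn⟩
  · refine ⟨((fun p : ℕ+ × J => p.1 : ℕ+ × J → ℕ+) : Germ _ ℕ+), ?_, ?_⟩
    · intro A hA
      change {p : ℕ+ × J | p.1 ∈ A} ∈ prod G W
      rw [mem_prod]
      filter_upwards [hA] with n hn
      simp only [hn]
      exact univ_mem
    · intro x hx
      rintro ⟨z, hz⟩
      induction x using Germ.inductionOn with
      | h f =>
      induction z using Germ.inductionOn with
      | h g =>
      rw [← Germ.coe_mul, Germ.coe_eq] at hz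
      have h1 : {n : ℕ+ | {t : J | n = f (n, t) * g (n, t)} ∈ W} ∈ G := mem_prod.1 hz
      have h2 : ∀ n : ℕ+, ∃ d : ℕ+, {t : J | n = f (n, t) * g (n, t)} ∈ W →
          {t : J | f (n, t) = d} ∈ W := by
        intro n
        by_cases hn : {t : J | n = f (n, t) * g (n, t)} ∈ W
        · have hfin : {m : ℕ+ | m ∣ n}.Finite := by
            have : {m : ℕ+ | m ∣ n} ⊆ (fun m : ℕ+ => (m : ℕ)) ⁻¹' (Set.Iic (n : ℕ)) := by
              intro m hm
              exact PNat.coe_le_coe _ _ |>.2 (PNat.le_of_dvd hm)
            exact ((Set.finite_Iic (n : ℕ)).preimage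
              (PNat.coe_injective.injOn)).subset this
          have h3 : (⋃ m ∈ {m : ℕ+ | m ∣ n}, {t : J | f (n, t) = m}) ∈ W := by
            filter_upwards [hn] with t ht
            simp only [Set.mem_iUnion]
            exact ⟨f (n, t), ⟨g (n, t), ht⟩, rfl⟩
          obtain ⟨m, -, hm⟩ := (Ultrafilter.finite_biUnion_mem_iff hfin).1 h3
          exact ⟨m, fun _ => hm⟩
        · exact ⟨1, fun h => absurd h hn⟩
      choose d hd using h2
      apply hF d
      symm
      apply Ultrafilter.eq_of_le
      intro A hA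
      have hA' : {n : ℕ+ | d n ∈ A} ∈ G := hA
      by_contra hAF
      have hAc : Aᶜ ∈ F := Ultrafilter.compl_mem_iff_notMem.2 hAF
      have h5 : {n : ℕ+ | {t : J | f (n, t) ∈ Aᶜ} ∈ W} ∈ G := mem_prod.1 (hx Aᶜ hAc)
      obtain ⟨n, ⟨hn1, hn2⟩, hn3⟩ := G.nonempty_of_mem (inter_mem (inter_mem h1 hA') h5)
      obtain ⟨t, ht1, ht2⟩ := W.nonempty_of_mem (inter_mem (hd n hn1) hn3)
      have ht1' : f (n, t) = d n := ht1
      exact ht2 (by rw [ht1']; exact hn2)

end Pool.Agent.Results.MP_c54df4_lc.NoDivisorInMonad
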